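import Pool.Agent.Lib.MP_c7af3c_ag.YY.H46.Hb
import Pool.Agent.Lib.MP_c7af3c_ag.YY.H46.Sch
import Pool.Agent.Lib.MP_c7af3c_ag.METC.All
import Pool.Agent.Lib.MP_c7af3c_ag.SHARP.Base54

/-!
# MP_c7af3c_ag, project SHARP: from the height inequality to hyperbolicity
-/

set_option autoImplicit false

namespace Pool.Agent.Sharp.H46

open MvPolynomial WithZero Pool.Agent.Gen Pool.Agent.GenY.H46 Pool.Agent.Sharp
open AlgebraicGeometry CategoryTheory

/-- the derivations commute -/
def CommD {L : Type} [Field L] {n c : ℕ} {d : Fin c → ℕ} (D : DSys L n c d) : Prop :=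
  ∀ m I m' I' f, D.del m I (D.del m' I' f) = D.del m' I' (D.del m I f)

/-- the height inequality for the points of complete intersections -/
def HtSharp (n c : ℕ) (d : Fin c → ℕ) (j0 : Fin (n + 1)) : Prop :=
  ∃ A : ℕ, ∀ (L : Type) [Field L] [CharZero L] (D : DSys L n c d), CommD D →
    ∀ x : Fin (n + 1) → L, x j0 = 1 → (∀ m, eval x (D.F m) = 0) →
    ∀ S : PlaceSys L, S.IsProd → ∀ B : S.V → ℕ, BD S D B → S.ht x ≤ A * tot S B

section

variable {n c : ℕ} (d : Fin c → ℕ) (j0 : Fin (n + 1))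

/-- the generic form over the integers -/
noncomputable def genP (m : Fin c) : MvPolynomial (Ix (M := n) d ⊕ Fin (n + 1)) ℤ :=
  ∑ s : Ix (M := n) d, if s.1.1 = m then X (Sum.inl s) * ∏ j, (X (Sum.inr j)) ^ s.1.2 j else 0

/-- the system of equations -/
def EP : Set (MvPolynomial (Ix (M := n) d ⊕ Fin (n + 1)) ℤ) :=
  {X (Sum.inr j0) - 1} ∪ Set.range (genP d)

theorem sol_EP {L : Type} [Field L] (φ : ℤ →+* L) (a : Ix (M := n) d → L)
    (z : Fin (n + 1) → L) : MetC.Sol (EP d j0) φ a z ↔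
      z j0 = 1 ∧ ∀ m, eval z (formOf a m) = 0 := by
  have h1 : ∀ m, eval₂ φ (Sum.elim a z) (genP d m) = eval z (formOf a m) := by
    intro m
    rw [eval_formOf, genP, eval₂_sum]
    refine Finset.sum_congr rfl fun s _ => ?_
    split_ifs
    · rw [eval₂_mul, eval₂_X, eval₂_prod]
      simp only [eval₂_pow, eval₂_X, Sum.elim_inl, Sum.elim_inr]
    · exact eval₂_zero _ _
  constructor
  · intro h
    refine ⟨?_, ?_⟩
    · have h2 := h (X (Sum.inr j0) - 1) (Or.inl rfl)
      rw [eval₂_sub, eval₂_X, eval₂_one, Sum.elim_inr, sub_eq_zero] at h2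
      exact h2
    · intro m
      rw [← h1]
      exact h _ (Or.inr ⟨m, rfl⟩)
  · rintro ⟨h2, h4⟩ P (hP | ⟨m, rfl⟩)
    · rw [Set.mem_singleton_iff.1 hP, eval₂_sub, eval₂_X, eval₂_one, Sum.elim_inr, h2, sub_self]
    · rw [h1]
      exact h4 m

/-- the system of commuting derivations -/
noncomputable def toDSysC {L : Type} [Field L] (D : MetC.DD (Ix (M := n) d) L) :
    DSys L n c d :=
  toDSys { a := D.a, del := D.del, one := D.one, zero := D.zero }

theorem toDSysC_comm {L : Type} [Field L] (D : MetC.DD (Ix (M := n) d) L) :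
    CommD (toDSysC d D) := by
  intro m I m' I' f
  unfold toDSysC
  by_cases h : I.degree = d m
  · by_cases h' : I'.degree = d m'
    · rw [toDSys_del _ _ _ h, toDSys_del _ _ _ h']
      exact D.comm _ _ _
    · rw [toDSys_del _ _ _ h, toDSys_del' _ _ _ h']
      simp
  · by_cases h' : I'.degree = d m'
    · rw [toDSys_del' _ _ _ h, toDSys_del _ _ _ h']
      simp
    · rw [toDSys_del' _ _ _ h, toDSys_del' _ _ _ h']

theorem coeff_le {L : Type} [Field L] (v : Valuation L ℤᵐ⁰) (a : Ix (M := n) d → L) (M : ℕ)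
    (h : ∀ s, v (a s) ≤ exp (M : ℤ)) (m : Fin c) (I : Fin (n + 1) →₀ ℕ) :
    v (coeff I (formOf a m)) ≤ exp (M : ℤ) := by
  by_cases hI : I.degree = d m
  · rw [coeff_formOf _ _ _ hI]
    exact h _
  · have h1 : coeff I (formOf a m) = 0 := by
      apply (formOf_hom a m).coeff_eq_zero
      rwa [Finsupp.degree_eq_weight_one] at hI ⊢
    rw [h1, map_zero]
    exact zero_le

theorem hbc (h : HtSharp n c d j0) : MetC.HB (EP d j0) := by
  obtain ⟨A, hA⟩ := h
  refine ⟨A, fun L _ _ φ D _ z hz S hS _ B hB j => ?_⟩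
  obtain ⟨hz0, hzF⟩ := (sol_EP d j0 φ D.a z).1 hz
  refine (ht_single_le j0 S hS.fin z hz0 j).trans ?_
  refine hA L (toDSysC d D) (toDSysC_comm d D) z hz0 hzF S hS B ⟨hB.fin, ?_, ?_⟩
  · intro p m I hI f hf
    unfold toDSysC
    rw [toDSys_del _ m I hI]
    exact hB.del p _ f hf
  · intro p m I
    exact coeff_le d (S.v p) D.a (B p) (hB.a p) m I

theorem finSol (h : ∀ j0, HtSharp n c d j0) (K' : Type) [Field K'] [IsAlgClosed K']
    [CharZero K'] (F : Fin c → MvPolynomial (Fin (n + 1)) K')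
    (hF : ∀ m, (F m).IsHomogeneous (d m))
    (hind : AlgebraicIndependent ℤ (fun s : Ix (M := n) d => coeff s.1.2 (F s.1.1))) :
    FinSol K' n (Set.range F) := by
  intro S hS j0
  refine (MetC.thmlAll K' (Ix (M := n) d) (Fin (n + 1)) (EP d j0) _ hind
    (hbc d j0 (h j0)) S hS).subset ?_
  rintro x ⟨hx1, hx2, hx3⟩
  refine ⟨hx2, ?_⟩
  rw [sol_EP]
  refine ⟨hx1, fun m => ?_⟩
  rw [← eq_formOf F hF m]
  exact hx3 _ ⟨m, rfl⟩

end

theorem main (k : Type) [Field k] [IsAlgClosed k] [CharZero k] (n c : ℕ) (d : Fin c → ℕ)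
    (h : ∀ j0, HtSharp n c d j0)
    (F : Fin c → MvPolynomial (Fin (n + 1)) k) (hF : ∀ m, (F m).IsHomogeneous (d m))
    (hind : AlgebraicIndependent ℤ (fun s : Ix (M := n) d => coeff s.1.2 (F s.1.1)))
    (X : Over (Spec (CommRingCat.of k))) (hX : FinOver k n (Set.range F) X) :
    IsGL k X ∧ IsAH k X := by
  have hP : ∀ g ∈ Set.range F, ∃ e, g.IsHomogeneous e := by
    rintro _ ⟨m, rfl⟩
    exact ⟨_, hF m⟩
  constructor
  · refine grplY k n (Set.range F) hP (fun K' _ _ _ => ?_) X hX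
    have : CharZero K' := charZero_of_injective_algebraMap (algebraMap k K').injective
    rw [← Set.range_comp]
    refine finSol d h K' (fun m => map (algebraMap k K') (F m)) (fun m => (hF m).map _) ?_
    have h1 : (fun s : Ix (M := n) d => coeff s.1.2 (map (algebraMap k K') (F s.1.1))) =
        (algebraMap k K').toIntAlgHom ∘ (fun s : Ix (M := n) d => coeff s.1.2 (F s.1.1)) := by
      funext s
      rw [coeff_map]
      rfl
    rw [h1]
    exact hind.map' (f := (algebraMap k K').toIntAlgHom) (algebraMap k K').injective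
  · exact sfinY k n (Set.range F) hP (finSol d h k F hF hind) X hX

end Pool.Agent.Sharp.H46
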